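import Mathlib

/-!
# MP_9fbb3c: zero-absent uniform colourings of symmetric designs

The parameters `(v, k, ℓ) = (16, 10, 6)` satisfy `(∗)`, a symmetric design with `v = 16`, `k = 10`
exists, but none has a `0`-ULSE `6`-colouring. More generally this happens for the complements of
all Menon designs `(4u², 2u² - u, u² - u)`, `u ≥ 2`, with `ℓ = 2u + 2`.
-/

namespace Pool.Agent.Results.MP_9fbb3c_co.NotAll

open Finset

/-- A `(v, k, λ)`-BIBD on the point set `V` with blocks `blk b`, `b : B` (so repeated blocks are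
allowed): blocks have size `k` and every pair of distinct points is in exactly `lam` blocks. -/
def IsBIBD {V B : Type} [Fintype V] [DecidableEq V] [Fintype B] (blk : B → Finset V)
    (v k lam : ℕ) : Prop :=
  Fintype.card V = v ∧ 1 ≤ lam ∧ 2 ≤ k ∧ k < v ∧ (∀ b, (blk b).card = k) ∧
    ∀ x y : V, x ≠ y → (univ.filter fun b => x ∈ blk b ∧ y ∈ blk b).card = lam

/-- `f` is a `0`-ULSE `ℓ`-colouring: `f` is onto the `ℓ` colours, `ℓ - 1` divides `k`, and every
block misses exactly one colour `c` and contains every other colour exactly `k / (ℓ - 1)`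
times. -/
def IsULSE {V B : Type} [Fintype V] [DecidableEq V] [Fintype B] (blk : B → Finset V)
    (k ℓ : ℕ) (f : V → Fin ℓ) : Prop :=
  Function.Surjective f ∧ (ℓ - 1) ∣ k ∧
    ∀ b, ∃ c : Fin ℓ, ((blk b).filter fun x => f x = c).card = 0 ∧
      ∀ c' : Fin ℓ, c' ≠ c → ((blk b).filter fun x => f x = c').card = k / (ℓ - 1) ∧
        ((blk b).filter fun x => f x = c').card ≠ 0

section counting

variable {V B : Type} [Fintype V] [DecidableEq V] [Fintype B] {blk : B → Finset V}
  {v k lam : ℕ}

/-- The number of blocks through a point. -/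
def rep (blk : B → Finset V) (x : V) : ℕ := (univ.filter fun b => x ∈ blk b).card

lemma rep_mul (h : IsBIBD blk v k lam) (x : V) : rep blk x * (k - 1) = (v - 1) * lam := by
  classical
  obtain ⟨hv, -, -, -, hk, hlam⟩ := h
  -- count pairs (b, y) with y ≠ x, x, y ∈ b
  have h1 : ∑ b ∈ univ.filter (fun b => x ∈ blk b), ((blk b).erase x).card =
      rep blk x * (k - 1) := by
    rw [rep, ← smul_eq_mul, ← Finset.sum_const]
    refine Finset.sum_congr rfl fun b hb => ?_
    rw [Finset.card_erase_of_mem (Finset.mem_filter.mp hb).2, hk]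
  have h2 : ∑ y ∈ univ.erase x, (univ.filter fun b => x ∈ blk b ∧ y ∈ blk b).card =
      (v - 1) * lam := by
    rw [Finset.sum_congr rfl fun y hy => hlam x y (Finset.ne_of_mem_erase hy).symm,
      Finset.sum_const, Finset.card_erase_of_mem (Finset.mem_univ x), Finset.card_univ, hv,
      smul_eq_mul]
  rw [← h1, ← h2]
  have e1 : ∀ b ∈ univ.filter (fun b => x ∈ blk b), ((blk b).erase x).card =
      ∑ y ∈ univ.erase x, if y ∈ blk b then 1 else 0 := by
    intro b _
    rw [Finset.card_eq_sum_ones, ← Finset.sum_filter]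
    congr 1
    ext y
    simp only [Finset.mem_erase, Finset.mem_filter, Finset.mem_univ, and_true]
  have e2 : ∀ y ∈ univ.erase x, (univ.filter fun b => x ∈ blk b ∧ y ∈ blk b).card =
      ∑ b ∈ univ.filter (fun b => x ∈ blk b), if y ∈ blk b then 1 else 0 := by
    intro y _
    rw [Finset.card_eq_sum_ones, ← Finset.sum_filter, Finset.filter_filter]
  rw [Finset.sum_congr rfl e1, Finset.sum_congr rfl e2, Finset.sum_comm]

lemma sum_rep (h : IsBIBD blk v k lam) : ∑ x, rep blk x = Fintype.card B * k := by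
  classical
  obtain ⟨hv, -, -, -, hk, hlam⟩ := h
  have e1 : ∀ x ∈ (univ : Finset V), rep blk x = ∑ b : B, if x ∈ blk b then 1 else 0 := by
    intro x _
    rw [rep, Finset.card_eq_sum_ones, Finset.sum_filter]
  rw [Finset.sum_congr rfl e1, Finset.sum_comm]
  have e2 : ∀ b ∈ (univ : Finset B), (∑ x : V, if x ∈ blk b then 1 else 0) = k := by
    intro b _
    rw [← Finset.sum_filter, ← Finset.card_eq_sum_ones, ← hk b]
    congr 1
    ext x
    simp
  rw [Finset.sum_congr rfl e2, Finset.sum_const, Finset.card_univ, smul_eq_mul]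

/-- In a symmetric design every point lies in `k` blocks. -/
lemma rep_eq (h : IsBIBD blk v k lam) (hsym : Fintype.card B = v) (x : V) :
    rep blk x = k := by
  have h1 : ∀ y, rep blk y = rep blk x := by
    intro y
    have hk := h.2.2.1
    have h2 : rep blk y * (k - 1) = rep blk x * (k - 1) := by
      rw [rep_mul h y, rep_mul h x]
    exact Nat.eq_of_mul_eq_mul_right (by omega) h2
  have h2 := sum_rep h
  rw [Finset.sum_congr rfl fun y _ => h1 y, Finset.sum_const, Finset.card_univ, h.1, hsym,
    smul_eq_mul] at h2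
  have hv : 0 < v := by
    have := h.2.2.2.1
    omega
  exact Nat.eq_of_mul_eq_mul_left hv h2

/-- Colour classes: `(g - 1) λ = r (m - 1)`. -/
lemma class_card (h : IsBIBD blk v k lam) {r : ℕ} (hr : ∀ x, rep blk x = r) {ℓ : ℕ}
    {f : V → Fin ℓ} (hf : IsULSE blk k ℓ f) (c : Fin ℓ) :
    ((univ.filter fun x => f x = c).card - 1) * lam = r * (k / (ℓ - 1) - 1) := by
  classical
  obtain ⟨hsurj, hdvd, hblk⟩ := hf
  set m := k / (ℓ - 1) with hm
  set C : Finset V := univ.filter fun x => f x = c with hC
  -- number of points of colour `c` in a block is `0` or `m`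
  have h0m : ∀ b, ((blk b).filter fun x => f x = c).card = 0 ∨
      ((blk b).filter fun x => f x = c).card = m := by
    intro b
    obtain ⟨c₀, h1, h2⟩ := hblk b
    by_cases hc : c = c₀
    · left; rw [hc]; exact h1
    · right; exact (h2 c hc).1
  set N : ℕ := (univ.filter fun b : B => ((blk b).filter fun x => f x = c).card ≠ 0).card with hN
  have hsum : ∀ F : ℕ → ℕ, F 0 = 0 →
      ∑ b : B, F ((blk b).filter fun x => f x = c).card = N * F m := by
    intro F hF0
    rw [hN, ← smul_eq_mul, ← Finset.sum_const, Finset.sum_filter]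
    refine Finset.sum_congr rfl fun b _ => ?_
    rcases h0m b with h | h
    · rw [h, hF0]; simp
    · by_cases hm0 : m = 0
      · rw [h, hm0, hF0]; simp
      · rw [h, if_pos hm0]
  -- incidences
  have hinc : C.card * r = N * m := by
    rw [← hsum (fun n => n) rfl]
    have e1 : ∀ b ∈ (univ : Finset B), ((blk b).filter fun x => f x = c).card =
        ∑ x ∈ C, if x ∈ blk b then 1 else 0 := by
      intro b _
      rw [Finset.card_eq_sum_ones, ← Finset.sum_filter]
      congr 1
      ext x
      simp only [hC, Finset.mem_filter, Finset.mem_univ, true_and]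
      tauto
    rw [Finset.sum_congr rfl e1, Finset.sum_comm]
    have e2 : ∀ x ∈ C, (∑ b : B, if x ∈ blk b then 1 else 0) = r := by
      intro x _
      rw [← hr x, rep, Finset.card_eq_sum_ones, Finset.sum_filter]
    rw [Finset.sum_congr rfl e2, Finset.sum_const, smul_eq_mul]
  -- pairs
  have hpair : C.card * (C.card - 1) * lam = N * (m * (m - 1)) := by
    rw [← hsum (fun n => n * (n - 1)) rfl]
    have e1 : ∀ b ∈ (univ : Finset B),
        ((blk b).filter fun x => f x = c).card * (((blk b).filter fun x => f x = c).card - 1) =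
        ∑ p ∈ C.offDiag, if p.1 ∈ blk b ∧ p.2 ∈ blk b then 1 else 0 := by
      intro b _
      rw [← Finset.sum_filter, ← Finset.card_eq_sum_ones]
      have : (C.offDiag.filter fun p => p.1 ∈ blk b ∧ p.2 ∈ blk b) =
          ((blk b).filter fun x => f x = c).offDiag := by
        ext p
        simp only [hC, Finset.mem_filter, Finset.mem_offDiag, Finset.mem_univ, true_and]
        tauto
      rw [this, Finset.offDiag_card, Nat.mul_sub_one]
    rw [Finset.sum_congr rfl e1, Finset.sum_comm]
    have e2 : ∀ p ∈ C.offDiag,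
        (∑ b : B, if p.1 ∈ blk b ∧ p.2 ∈ blk b then 1 else 0) = lam := by
      intro p hp
      rw [← Finset.sum_filter, ← Finset.card_eq_sum_ones]
      exact h.2.2.2.2.2 p.1 p.2 (Finset.mem_offDiag.mp hp).2.2
    rw [Finset.sum_congr rfl e2, Finset.sum_const, smul_eq_mul, Finset.offDiag_card,
      Nat.mul_sub_one]
  have hCpos : 0 < C.card := by
    obtain ⟨x, hx⟩ := hsurj c
    exact Finset.card_pos.mpr ⟨x, by simp [hC, hx]⟩
  have h3 : C.card * ((C.card - 1) * lam) = C.card * (r * (m - 1)) := by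
    calc C.card * ((C.card - 1) * lam) = C.card * (C.card - 1) * lam := by ring
      _ = N * m * (m - 1) := by rw [hpair]; ring
      _ = C.card * r * (m - 1) := by rw [hinc]
      _ = C.card * (r * (m - 1)) := by ring
  exact Nat.eq_of_mul_eq_mul_left hCpos h3

/-- All colour classes have the same size, so `ℓ` divides `v`. -/
theorem dvd_of_coloured (h : IsBIBD blk v k lam) (hsym : Fintype.card B = v) {ℓ : ℕ}
    {f : V → Fin ℓ} (hf : IsULSE blk k ℓ f) : ℓ ∣ v := by
  classical
  have hc := class_card h (rep_eq h hsym) hf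
  have hlam := h.2.1
  have hpos : ∀ c, 0 < (univ.filter fun x => f x = c).card := by
    intro c
    obtain ⟨x, hx⟩ := hf.1 c
    exact Finset.card_pos.mpr ⟨x, by simp [hx]⟩
  rcases Nat.eq_zero_or_pos ℓ with rfl | hℓ
  · have : Fintype.card V ≠ 0 := by
      have := h.1
      have := h.2.2.2.1
      omega
    exfalso
    apply this
    rw [Fintype.card_eq_zero_iff]
    exact ⟨fun x => (f x).elim0⟩
  · let c₀ : Fin ℓ := ⟨0, hℓ⟩
    have hall : ∀ c, (univ.filter fun x => f x = c).card =
        (univ.filter fun x => f x = c₀).card := by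
      intro c
      have h1 := (hc c).trans (hc c₀).symm
      have h2 := Nat.eq_of_mul_eq_mul_right (by omega) h1
      have h3 := hpos c
      have h4 := hpos c₀
      omega
    refine ⟨(univ.filter fun x => f x = c₀).card, ?_⟩
    rw [← h.1, ← Finset.card_univ, Finset.card_eq_sum_card_fiberwise (f := f) (t := univ)
      (fun _ _ => Finset.mem_univ _), Finset.sum_congr rfl fun c _ => hall c, Finset.sum_const,
      Finset.card_univ, Fintype.card_fin, smul_eq_mul]

end counting

/-- The complement of the biplane on the `4 × 4` grid: the block of `(i, j)` consists of `(i, j)`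
and of all cells in a different row and a different column. -/
def gridBlock (p : Fin 4 × Fin 4) : Finset (Fin 4 × Fin 4) :=
  univ.filter fun q => q = p ∨ (q.1 ≠ p.1 ∧ q.2 ≠ p.2)

set_option maxRecDepth 100000 in
lemma gridBlock_design : IsBIBD gridBlock 16 10 6 := by
  refine ⟨by decide, by norm_num, by norm_num, by norm_num, by decide, by decide⟩

/-- Condition `(∗)`: `v = ℓ (ℓ - 2) k / ((ℓ - 1)² - k)`. -/
def Star (v k ℓ : ℕ) : Prop :=
  (v : ℚ) = (ℓ : ℚ) * ((ℓ : ℚ) - 2) * k / (((ℓ : ℚ) - 1) ^ 2 - k)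

/-- A symmetric BIBD with `v` points and block size `k` exists. -/
def SymExists (v k : ℕ) : Prop :=
  ∃ (V B : Type) (_ : Fintype V) (_ : DecidableEq V) (_ : Fintype B) (blk : B → Finset V)
    (lam : ℕ), IsBIBD blk v k lam ∧ Fintype.card B = v

/-- Some symmetric BIBD with `v` points and block size `k` has a `0`-ULSE `ℓ`-colouring. -/
def ColouredExists (v k ℓ : ℕ) : Prop :=
  ∃ (V B : Type) (_ : Fintype V) (_ : DecidableEq V) (_ : Fintype B) (blk : B → Finset V)
    (lam : ℕ), (IsBIBD blk v k lam ∧ Fintype.card B = v) ∧ ∃ f : V → Fin ℓ, IsULSE blk k ℓ f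

/-- **Negative answer to Q1 of MP_9fbb3c.**
(1) It is not true that for all positive `v, k, ℓ` satisfying `(∗)` for which a symmetric BIBD
exists there is a `0`-ULSE `ℓ`-coloured one: `(v, k, ℓ) = (16, 10, 6)` is a counterexample.
(2) In every `0`-ULSE `ℓ`-coloured symmetric BIBD the number `ℓ` divides `v`.
(3) For every `u ≥ 2` the parameters `(4u², 2u² + u)` of the complements of Menon designs satisfy
`(∗)` with `ℓ = 2u + 2`, but no symmetric BIBD with these parameters has a `0`-ULSE
`(2u + 2)`-colouring. -/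
theorem result :
    (¬ ∀ v k ℓ : ℕ, 0 < v → 0 < k → 0 < ℓ → Star v k ℓ → SymExists v k →
      ColouredExists v k ℓ) ∧
    (Star 16 10 6 ∧ SymExists 16 10 ∧ ¬ ColouredExists 16 10 6) ∧
    (∀ v k ℓ : ℕ, ColouredExists v k ℓ → ℓ ∣ v) ∧
    (∀ u : ℕ, 2 ≤ u → Star (4 * u ^ 2) (2 * u ^ 2 + u) (2 * u + 2) ∧
      ¬ ColouredExists (4 * u ^ 2) (2 * u ^ 2 + u) (2 * u + 2)) := by
  have hdvd : ∀ v k ℓ : ℕ, ColouredExists v k ℓ → ℓ ∣ v := by
    rintro v k ℓ ⟨V, B, i1, i2, i3, blk, lam, ⟨h1, h2⟩, f, hf⟩
    exact dvd_of_coloured h1 h2 hf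
  have h16 : Star 16 10 6 ∧ SymExists 16 10 ∧ ¬ ColouredExists 16 10 6 := by
    refine ⟨by norm_num [Star], ⟨Fin 4 × Fin 4, Fin 4 × Fin 4, inferInstance, inferInstance,
      inferInstance, gridBlock, 6, gridBlock_design, by simp⟩, ?_⟩
    intro h
    have := hdvd _ _ _ h
    omega
  refine ⟨?_, h16, hdvd, ?_⟩
  · intro h
    exact h16.2.2 (h 16 10 6 (by norm_num) (by norm_num) (by norm_num) h16.1 h16.2.1)
  · intro u hu
    constructor
    · have hu' : (2:ℚ) ≤ u := by exact_mod_cast hu
      unfold Star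
      push_cast
      have h1 : ((2 * (u:ℚ) + 2) - 1) ^ 2 - (2 * (u:ℚ) ^ 2 + u) = (2 * u + 1) * (u + 1) := by ring
      rw [h1, eq_div_iff (by positivity)]
      ring
    · intro h
      obtain ⟨c, hc⟩ := hdvd _ _ _ h
      -- (u + 1) c = 2 u², so u + 1 divides 2
      have h2 : (u + 1) * c = 2 * u ^ 2 := by nlinarith
      have h3 : u + 1 ∣ 2 := by
        have h4 : u + 1 ∣ 2 * u ^ 2 := ⟨c, h2.symm⟩
        obtain ⟨w, rfl⟩ : ∃ w, u = w + 1 := ⟨u - 1, by omega⟩
        have h5 : 2 * (w + 1) ^ 2 = (w + 1 + 1) * (2 * w) + 2 := by ring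
        rw [h5] at h4
        exact (Nat.dvd_add_right (dvd_mul_right _ _)).mp h4
      have h6 := Nat.le_of_dvd (by norm_num) h3
      omega

end Pool.Agent.Results.MP_9fbb3c_co.NotAll
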